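import Pool.Agent.P.MP_dd457d_ag.Bav.TightD
import Pool.Agent.P.MP_2ce3e7_ag.Tav.TtAll

set_option autoImplicit false

namespace Pool.Agent.Results.MP_dd457d_ag.AllAbelianBeilinson

open Pool.Agent.Tav Pool.Agent.Bav Pool.Agent

/-- A combination of finitely generated graded modules pairs to zero with every vector bundle if
and only if it is torsion modulo the relations. -/
def KerTors (k : Type) [Field k] {A σ : Type} [CommRing A] [Algebra k A] (𝒜 : ℤ → Set A)
    (z : σ → A) : Prop :=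
  ∀ x : FreeAbelianGroup (CXD.FGM 𝒜),
    (∀ N : CXD.FGM 𝒜, CXD.LF z N.1 →
      FreeAbelianGroup.lift (fun V : CXD.FGM 𝒜 => CXD.pair k N.1 V.1) x = 0) ↔
      ∃ c : ℕ, 0 < c ∧ c • x ∈ CXD.rels 𝒜

/-- On an abelian variety over a finite field the kernel of the Euler pairing is the torsion of
the Grothendieck group. -/
theorem result (k : Type) [Field k] [Fintype k] {G τ : Type} [AddCommGroup G] [Fintype τ]
    (g : ℕ) (p : G → τ → AlgebraicClosure k) (hA : AV p g)
    (hi : ∀ y y', Par (p y) (p y') → y = y') (F : G →+ G)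
    (hF : ∀ y, Par (p (F y)) (p y ^ Fintype.card k)) :
    KerTors k (CXD.hom (idk k p)) (CXD.crd (idk k p)) :=
  BavT.sharp k hA hi hF

/-- The form for combinations of vector bundles tested against all modules. -/
theorem numTors (k : Type) [Field k] [Fintype k] {G τ : Type} [AddCommGroup G] [Fintype τ]
    (g : ℕ) (p : G → τ → AlgebraicClosure k) (hA : AV p g)
    (hi : ∀ y y', Par (p y) (p y') → y = y') (F : G →+ G)
    (hF : ∀ y, Par (p (F y)) (p y ^ Fintype.card k)) :
    CXD.NumTors k (CXD.hom (idk k p)) (CXD.crd (idk k p)) :=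
  fun x _ hx => (result k g p hA hi F hF x).1 fun N _ => hx N

/-- Modulo the relations every finitely generated graded module is a combination of vector
bundles. -/
theorem resolution (k : Type) [Field k] [Fintype k] {G τ : Type} [AddCommGroup G] [Fintype τ]
    (g : ℕ) (p : G → τ → AlgebraicClosure k) (hA : AV p g)
    (hi : ∀ y y', Par (p y) (p y') → y = y') (F : G →+ G)
    (hF : ∀ y, Par (p (F y)) (p y ^ Fintype.card k))
    (N : CXD.FGM (CXD.hom (idk k p))) :
    FreeAbelianGroup.of N ∈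
      CXD.vb (CXD.hom (idk k p)) (CXD.crd (idk k p)) ⊔ CXD.rels (CXD.hom (idk k p)) :=
  BavT.resolution k hA hi hF N

/-- For every projective scheme the parts of `N ⊗ V` have finite dimension, and for large degrees
this dimension is the value of the polynomial `hp` that defines `pair`. -/
theorem hilbert (k : Type) [Field k] {σ : Type} [Fintype σ] (J : Ideal (MvPolynomial σ k))
    (N V : CXD.FGM (CXD.hom J)) :
    (∀ t, letI := Module.compHom (TensorProduct (MvPolynomial σ k ⧸ J) N.1.M V.1.M)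
            (algebraMap k (MvPolynomial σ k ⧸ J))
      Module.Finite k (Submodule.span k (CXD.tpc N.1 V.1 t))) ∧
    ∀ᶠ t : ℤ in Filter.atTop, (CXD.dimK k (MvPolynomial σ k ⧸ J) (CXD.tpc N.1 V.1 t) : ℚ) =
      (CXD.hp fun t => CXD.dimK k (MvPolynomial σ k ⧸ J) (CXD.tpc N.1 V.1 t)).eval (t : ℚ) :=
  haveI := BavT.gd_hom J
  (BavT.sd_hom J).hilbert N V

/-- Conversely, torsion classes pair to zero with every vector bundle. -/
theorem converse (k : Type) [Field k] {σ : Type} [Fintype σ] (J : Ideal (MvPolynomial σ k))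
    (N : CXD.FGM (CXD.hom J)) (hN : CXD.LF (CXD.crd J) N.1) {c : ℕ} (hc : 0 < c)
    {x : FreeAbelianGroup (CXD.FGM (CXD.hom J))} (hx : c • x ∈ CXD.rels (CXD.hom J)) :
    FreeAbelianGroup.lift (fun V : CXD.FGM (CXD.hom J) => CXD.pair k N.1 V.1) x = 0 :=
  haveI := BavT.gd_hom J
  (BavT.sd_hom J).converse N hN hc hx

/-- The class of a module is torsion only if the module vanishes in large degrees. -/
theorem faithful (k : Type) [Field k] {σ : Type} [Fintype σ] (J : Ideal (MvPolynomial σ k))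
    (M : CXD.FGM (CXD.hom J)) {c : ℕ} (hc : 0 < c)
    (hx : c • FreeAbelianGroup.of M ∈ CXD.rels (CXD.hom J)) : CXD.Tors M.1 :=
  haveI := BavT.gd_hom J
  (BavT.sd_hom J).faithful M hc hx

/-- There is a vector bundle whose class is not torsion. -/
theorem bundle (k : Type) [Field k] {G τ : Type} [AddCommGroup G] [Fintype τ] (g : ℕ)
    (p : G → τ → AlgebraicClosure k) (hA : AV p g) :
    ∃ V : CXD.FGM (CXD.hom (idk k p)), CXD.LF (CXD.crd (idk k p)) V.1 ∧
      ∀ c : ℕ, 0 < c → c • FreeAbelianGroup.of V ∉ CXD.rels (CXD.hom (idk k p)) :=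
  BavT.bundle p (hA.ne 0)

/-- The hypotheses hold for every elliptic curve over `k`: every Weierstrass cubic with
coefficients in `k` and nonzero discriminant. -/
theorem elliptic (k : Type) [Field k] [Fintype k] (a b : ℕ → AlgebraicClosure k)
    (ha : a ^ Fintype.card k = a) (h2 : b 2 = a 1 ^ 2 + 4 * a 2) (h4 : b 4 = 2 * a 4 + a 1 * a 3)
    (h6 : b 6 = a 3 ^ 2 + 4 * a 6)
    (h8 : b 8 = a 1 ^ 2 * a 6 + 4 * a 2 * a 6 - a 1 * a 3 * a 4 + a 2 * a 3 ^ 2 - a 4 ^ 2)
    (hd : -b 2 ^ 2 * b 8 - 8 * b 4 ^ 3 - 27 * b 6 ^ 2 + 9 * b 2 * b 4 * b 6 ≠ 0) :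
    ∃ (G : Type) (_ : AddCommGroup G) (p : G → Fin 3 → AlgebraicClosure k) (F : G →+ G),
      (∀ z, z ≠ 0 → ((∃ y, Par z (p y)) ↔
        z 1 ^ 2 * z 2 + a 1 * z 0 * z 1 * z 2 + a 3 * z 1 * z 2 ^ 2 =
          z 0 ^ 3 + a 2 * z 0 ^ 2 * z 2 + a 4 * z 0 * z 2 ^ 2 + a 6 * z 2 ^ 3)) ∧
      p 0 = ![0, 1, 0] ∧ AV p 1 ∧ (∀ y y', Par (p y) (p y') → y = y') ∧
        ∀ y, Par (p (F y)) (p y ^ Fintype.card k) :=
  Tt.cubic k a b ha h2 h4 h6 h8 hd

/-- The hypotheses hold in every positive dimension over every finite field. -/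
theorem nonempty (k : Type) [Field k] [Fintype k] (g : ℕ) :
    ∃ (G τ : Type) (_ : AddCommGroup G) (_ : Fintype τ) (p : G → τ → AlgebraicClosure k)
      (F : G →+ G), AV p (g + 1) ∧ (∀ y y', Par (p y) (p y') → y = y') ∧
        ∀ y, Par (p (F y)) (p y ^ Fintype.card k) :=
  Tt.hyp k g

end Pool.Agent.Results.MP_dd457d_ag.AllAbelianBeilinson
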