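import Pool.Agent.P.MP_2ce3e7_ag.TfMain
import Pool.Agent.P.MP_2ce3e7_ag.TfGeo

set_option autoImplicit false

namespace Pool.Agent.Results.MP_dd457d_ag.FermatAllBeilinson

open Pool.Agent.Tate

theorem result (m p n : ℕ) [Fact p.Prime] (hm : m ≠ 0)
    (hp : p = 2 → Set.Subsingleton
      {χ : DirichletCharacter ℂ m | (∃ e : ℕ, χ ^ 2 ^ e = 1) ∧ χ.Odd ∧ χ p ≠ 1})
    (k : Type) [Field k] [Finite k] [CharP k p] (hk : Nat.card k ≡ 1 [MOD m])
    (x : FreeAbelianGroup (GM m k (Fin n)))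
    (hx : ∀ N, FreeAbelianGroup.lift (fun M => pair M N) x = 0) :
    ∃ c : ℕ, 0 < c ∧ c • x ∈ rels m k (Fin n) := by
  have : NeZero m := ⟨hm⟩
  cases nonempty_fintype k
  obtain ⟨ζ⟩ := rt_of_card hk
  have : NeZero (m : k) := ⟨ζ.ne⟩
  exact final_B (ht_all hp (fun L _ _ _ b h => ka_geo p L b h) k ζ) x hx

end Pool.Agent.Results.MP_dd457d_ag.FermatAllBeilinson
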